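import Pool.Agent.Helper57.SJ.Asm
import Pool.Agent.Helper34.SI.FJ1
import Pool.Agent.Helper17.SI.FJ0
import Pool.Agent.Helper7.SL.MTS
import Pool.Agent.Helper9.SL.S2L
import Pool.Agent.Helper39.SL.TSS
import Pool.Agent.Helper78.SL.WQ
import Pool.Agent.Helper99.SL.LOWS
import Pool.Agent.Helper4.SL.UPS
import Pool.Agent.Helper38.SL.DES
import Pool.Agent.Helper81.SL.DWS
import Pool.Agent.Helper59.SL.APS
import Pool.Agent.Helper83.SL.CMS
import Pool.Agent.Helper57.SL.UNS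

/-!
# Assembly: typical short intervals, uniformly for `σ` near `1`
-/

set_option autoImplicit false

namespace Pool.Agent.Helper57.SL

theorem a_wq : ST_WQ :=
  Pool.Agent.Helper78.SL.st_WQ Pool.Agent.Helper57.SJ.a_osc Pool.Agent.Helper34.SI.st_FJ1
theorem a_lows : ST_LOWS :=
  Pool.Agent.Helper99.SL.st_LOWS a_wq Pool.Agent.Helper17.SI.st_FJ0 Pool.Agent.Helper9.SL.st_S2L
theorem a_ups : ST_UPS :=
  Pool.Agent.Helper4.SL.st_UPS Pool.Agent.Helper57.SJ.a_sup Pool.Agent.Helper9.SL.st_S2L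
    Pool.Agent.Helper39.SL.st_TSS
theorem a_des : ST_DES := Pool.Agent.Helper38.SL.st_DES Pool.Agent.Helper57.SJ.a_dt1
theorem a_dws : ST_DWS := Pool.Agent.Helper81.SL.st_DWS Pool.Agent.Helper57.SJ.a_dt2
theorem a_aps : ST_APS :=
  Pool.Agent.Helper59.SL.st_APS Pool.Agent.Helper57.SJ.a_gd2 Pool.Agent.Helper57.SJ.a_gwk
    Pool.Agent.Helper57.SJ.a_tlk
theorem a_cms : ST_CMS :=
  Pool.Agent.Helper83.SL.st_CMS Pool.Agent.Helper7.SL.st_MTS a_lows a_ups a_des a_dws a_aps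
theorem a_uns : ST_UNS := st_UNS a_cms

end Pool.Agent.Helper57.SL
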