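import Pool.Agent.Helper57.SJ.Stmts2

/-!
# Statement sheet: typical short intervals, uniformly for `σ` near `1`
-/

set_option autoImplicit false

namespace Pool.Agent.Helper57.SL

open MeasureTheory Set Filter Topology
open Pool.Agent.Helper57.QZ (Pr tor circ aa Zy Wy Sy Vy Ky pt lin Good zA Pz)
open Pool.Agent.Helper57.SI (fej fc gc Kk zz ww)

/-- the sum of `p^{-σ}` over `p ≤ x` -/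
noncomputable def S1 (σ : ℝ) (x : ℕ) : ℝ := ∑ p ∈ Nat.primesBelow (x + 1), (p : ℝ) ^ (-σ)

/-- the sum of `log p p^{-σ}` over `p ≤ x` -/
noncomputable def S2 (σ : ℝ) (x : ℕ) : ℝ :=
  ∑ p ∈ Nat.primesBelow (x + 1), Real.log p * (p : ℝ) ^ (-σ)

/-- the range of the primes that matter -/
noncomputable def YY (H : ℝ) : ℕ := ⌊Real.log H * Real.log (Real.log H) ^ 10⌋₊

/-- the defect for `log |ζ|` -/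
noncomputable def E1 (σ : ℝ) (z : ℕ) (α t : ℝ) : ℝ :=
  ∑ p : Pr z, ((p : ℕ) : ℝ) ^ (-σ) * (1 - Real.cos (t * Real.log ((p : ℕ) : ℝ) + α))

/-- the defect for `ζ'/ζ` -/
noncomputable def E2 (σ : ℝ) (z : ℕ) (α t : ℝ) : ℝ :=
  ∑ p : Pr z, Real.log ((p : ℕ) : ℝ) * ((p : ℕ) : ℝ) ^ (-σ) *
    (1 - Real.cos (t * Real.log ((p : ℕ) : ℝ) + α))

/-- the sum of `(log p)^j p^{-σ} e^{-i φ_p}` over `x < p ≤ y` -/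
noncomputable def ts (j : ℕ) (σ : ℝ) (y x : ℕ) (φ : Pr y → ℝ) : ℂ :=
  ∑ p : Pr y, if x < (p : ℕ) then
    ((Real.log ((p : ℕ) : ℝ) ^ j * ((p : ℕ) : ℝ) ^ (-σ) : ℝ) : ℂ) *
      Complex.exp (-((φ p : ℂ) * Complex.I)) else 0

/-- the defect over the primes up to `x` -/
noncomputable def F1 (σ : ℝ) (y x : ℕ) (φ : Pr y → ℝ) : ℝ :=
  ∑ p : Pr y, if (p : ℕ) ≤ x then ((p : ℕ) : ℝ) ^ (-σ) * (1 - Real.cos (φ p)) else 0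

/-- `log log log H` -/
noncomputable def l3 (H : ℝ) : ℝ := Real.log (Real.log (Real.log H))

/-- the weighted integral of one defect, for every interval -/
def ST_WQ : Prop := ∀ (z K : ℕ) (α u H : ℝ), 1 ≤ K → 0 ≤ H →
  |(∫ t in u..(u + H), ww z K α t) - H| ≤ 2 * 4 ^ ((K + 1) * z) * (2 * K + 3) ^ z ∧
  ∀ q : Pr z, (∫ t in u..(u + H), ww z K α t *
      (1 - Real.cos (t * Real.log ((q : ℕ) : ℝ) + α))) ≤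
    H / K + 4 * 4 ^ ((K + 1) * z) * (2 * K + 3) ^ z

/-- every interval contains a point with the phase `α` for the small primes -/
def ST_LOWS : Prop := ∀ η ∈ Ioo (0:ℝ) 1, ∃ H₀ : ℝ, 3 ≤ H₀ ∧ ∀ H : ℝ, H₀ ≤ H →
  ∀ σ ∈ Icc (3 / 4 : ℝ) 1, ∀ u α : ℝ, ∃ t ∈ Icc u (u + H),
    E1 σ (zz H) α t ≤ η * (S2 σ (zz H) / Real.log (Real.log H)) ∧
    E2 σ (zz H) α t ≤ η * S2 σ (zz H)

/-- consequences of Mertens' theorem near `σ = 1` -/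
def ST_MTS : Prop := ∀ η ∈ Ioo (0:ℝ) 1, ∀ C : ℝ, ∃ κ ∈ Ioo (0:ℝ) 1, ∃ H₀ : ℝ, 3 ≤ H₀ ∧
  ∀ H : ℝ, H₀ ≤ H → 1 ≤ l3 H ∧ C ≤ (zz H : ℝ) ∧ zz H ≤ ⌊Real.log H⌋₊ ∧
  ⌊Real.log H⌋₊ ≤ YY H ∧ 0 ≤ Real.log (YY H) ∧ Real.log (YY H) ≤ 2 * Real.log (Real.log H) ∧
  ∀ σ ∈ Icc (1 - κ / l3 H) 1, 3 / 4 ≤ σ ∧ C ≤ η * S2 σ (zz H) ∧
    1 / 2 * Real.log (Real.log H) ≤ S2 σ (zz H) ∧
    S2 σ (YY H) ≤ (1 + η) * S2 σ (zz H) ∧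
    S1 σ (YY H) - S1 σ (zz H) ≤ η * (S2 σ (zz H) / Real.log (Real.log H))

/-- lower bound for `S2` -/
def ST_S2L : Prop := ∃ c z₀ : ℝ, 0 < c ∧ ∀ z : ℕ, z₀ ≤ z → ∀ σ ∈ Icc (3 / 4 : ℝ) 1,
  c * (z : ℝ) ^ (1 - σ) ≤ S2 σ z ∧ Real.log z - 3 ≤ S2 σ z

/-- tails of convergent sums -/
def ST_TSS : Prop := ∃ C : ℝ, 0 < C ∧ ∀ y x : ℕ, 2 ≤ x → ∀ σ ∈ Icc (3 / 4 : ℝ) 1,
  ∑ p ∈ Pool.Agent.Helper57.SJ.PP x y,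
    ((1 + Real.log (p : ℝ)) ^ 2 * (p : ℝ) ^ (-σ)) ^ 2 ≤
      C * (1 + Real.log x) ^ 4 * (x : ℝ) ^ (1 - 2 * σ)

/-- the tails at all points of almost all intervals -/
def ST_UPS : Prop := ∀ η ∈ Ioo (0:ℝ) 1, ∀ A : ℝ, 3 ≤ A → ∀ B : ℝ, 1 ≤ B →
  ∃ H₀ T₀ : ℝ, 3 ≤ H₀ ∧ 4 ≤ T₀ ∧ ∀ T : ℝ, T₀ ≤ T → ∀ H : ℝ, H₀ ≤ H →
  H ≤ Real.exp (Real.log T / Real.log (Real.log T)) → YY H ≤ zA A T ∧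
  ∀ σ ∈ Icc (1 - 1 / l3 H) 1,
  ∃ E : Set ℝ, E ⊆ Icc T (2 * T) ∧ volume.real E ≤ T * H ^ (-B) ∧
  ∀ u ∈ Icc T (2 * T), u ∉ E → ∀ t ∈ Icc u (u + H), ∀ j ≤ 1,
    ‖ts j σ (zA A T) (YY H) (lin (zA A T) t)‖ ≤ η * (S2 σ (zz H) / Real.log (Real.log H))

/-- upper and lower bounds for the Euler product -/
def ST_DES : Prop := ∃ C : ℝ, 0 < C ∧ ∀ (y z Z : ℕ) (t σ e : ℝ), σ ∈ Icc (3 / 4 : ℝ) 1 →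
  1 ≤ z → z ≤ Z → Z ≤ y → ‖ts 0 σ y Z (lin y t)‖ ≤ e →
  Real.log ‖Zy y σ (lin y t)‖ ≤ S1 σ Z - F1 σ y Z (lin y t) + Ky y σ + e ∧
  (E1 σ z 0 t ≤ e → S1 σ z + Ky y σ - 18 * e - (S1 σ Z - S1 σ z) - C / Real.sqrt z ≤
    Real.log ‖Zy y σ (lin y t)‖)

/-- bounds for the logarithmic derivative of the Euler product -/
def ST_DWS : Prop := ∃ C : ℝ, 0 < C ∧ ∀ (y z Z : ℕ) (t σ e : ℝ), σ ∈ Icc (3 / 4 : ℝ) 1 →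
  1 ≤ z → z ≤ Z → Z ≤ y → ‖ts 1 σ y Z (lin y t)‖ ≤ e →
  ‖Wy y σ (lin y t)‖ ≤ S2 σ Z + e + C ∧
  S2 σ Z - Real.log Z * F1 σ y Z (lin y t) - e - C ≤ ‖Wy y σ (lin y t)‖ ∧
  ∀ θ : ℝ, S2 σ z - E2 σ z (θ + Real.pi) t - (S2 σ Z - S2 σ z) - e - C ≤
    (Complex.exp (-((θ : ℂ) * Complex.I)) * Wy y σ (lin y t)).re

/-- `ζ` against the short Euler product at all points of almost all intervals -/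
def ST_APS : Prop := ∀ η ∈ Ioo (0:ℝ) (1 / 2), ∃ A : ℝ, 3 ≤ A ∧ ∀ B : ℝ, 1 ≤ B →
  ∃ c ∈ Ioo (0:ℝ) 1, ∃ T₀ : ℝ, 4 ≤ T₀ ∧ ∀ T : ℝ, T₀ ≤ T → ∀ H : ℝ, 3 ≤ H → H ≤ T ^ c →
  ∀ σ ∈ Icc (3 / 4 : ℝ) 1,
  ∃ E : Set ℝ, E ⊆ Icc T (2 * T) ∧ volume.real E ≤ T * H ^ (-B) ∧
  ∀ u ∈ Icc T (2 * T), u ∉ E → u + H ≤ 2 * T ∧ ∀ t ∈ Icc u (u + H), riemannZeta (pt σ t) ≠ 0 ∧
    |Real.log ‖riemannZeta (pt σ t)‖ - Real.log ‖Zy (zA A T) σ (lin (zA A T) t)‖| ≤ η ∧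
    ‖deriv riemannZeta (pt σ t) / riemannZeta (pt σ t) - Wy (zA A T) σ (lin (zA A T) t)‖ ≤ η

/-- the combination -/
def ST_CMS : Prop := ∀ δ ∈ Ioo (0:ℝ) 1, ∀ B : ℝ, 1 ≤ B → ∃ κ ∈ Ioo (0:ℝ) 1,
  ∃ H₀ T₀ : ℝ, 3 ≤ H₀ ∧ 4 ≤ T₀ ∧ ∀ T : ℝ, T₀ ≤ T → ∀ H : ℝ, H₀ ≤ H →
  H ≤ Real.exp (Real.log T / Real.log (Real.log T)) → 1 ≤ l3 H ∧
  ∀ σ ∈ Icc (1 - κ / l3 H) 1,
  1 / 2 * Real.log (Real.log H) ≤ S2 σ ⌊Real.log H⌋₊ ∧ ∃ M R : ℝ,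
  ∃ E : Set ℝ, E ⊆ Icc T (2 * T) ∧ volume.real E ≤ T * H ^ (-B) ∧
  ∀ u ∈ Icc T (2 * T), u ∉ E → u + H ≤ 2 * T ∧
  (∀ t ∈ Icc u (u + H), riemannZeta (pt σ t) ≠ 0 ∧ ‖riemannZeta (pt σ t)‖ ≤ R ∧
    ‖deriv riemannZeta (pt σ t) / riemannZeta (pt σ t)‖ ≤ (1 + δ) * S2 σ ⌊Real.log H⌋₊ ∧
    (M - δ / 4 * (S2 σ ⌊Real.log H⌋₊ / Real.log (Real.log H)) ≤
        Real.log ‖riemannZeta (pt σ t)‖ →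
      (1 - δ) * S2 σ ⌊Real.log H⌋₊ ≤
        ‖deriv riemannZeta (pt σ t) / riemannZeta (pt σ t)‖)) ∧
  (∃ t ∈ Icc u (u + H), M - δ / 8 * (S2 σ ⌊Real.log H⌋₊ / Real.log (Real.log H)) ≤
    Real.log ‖riemannZeta (pt σ t)‖) ∧
  ∀ θ : ℝ, ∃ t ∈ Icc u (u + H), (1 - δ) * S2 σ ⌊Real.log H⌋₊ ≤
    (Complex.exp (-((θ : ℂ) * Complex.I)) *
      (deriv riemannZeta (pt σ t) / riemannZeta (pt σ t))).re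

/-- the theorem on unions of typical short intervals, uniformly for `σ` near `1` -/
def ST_UNS : Prop := ∀ δ ∈ Ioo (0:ℝ) 1, ∀ B : ℝ, 1 ≤ B → ∃ κ ∈ Ioo (0:ℝ) 1,
  ∃ H₀ T₀ : ℝ, 3 ≤ H₀ ∧ 4 ≤ T₀ ∧ ∀ T : ℝ, T₀ ≤ T → ∀ H : ℝ, H₀ ≤ H →
  H ≤ Real.exp (Real.log T / Real.log (Real.log T)) → 1 ≤ l3 H ∧
  ∀ σ ∈ Icc (1 - κ / l3 H) 1,
  ∃ E : Set ℝ, E ⊆ Icc T (2 * T) ∧ volume.real E ≤ T * H ^ (-B) ∧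
  ∀ U : Set ℝ, U ⊆ Icc T (2 * T) \ E → U.Nonempty → ∀ G : Set ℝ, G = ⋃ u ∈ U, Icc u (u + H) →
  G ⊆ Icc T (2 * T) ∧ ∀ θ : ℝ,
  (1 - δ) * (sSup ((fun t : ℝ => ‖deriv riemannZeta (pt σ t)‖) '' G) /
      sSup ((fun t : ℝ => ‖riemannZeta (pt σ t)‖) '' G)) ≤
    sSup ((fun t : ℝ => (Complex.exp (-((θ : ℂ) * Complex.I)) *
      (deriv riemannZeta (pt σ t) / riemannZeta (pt σ t))).re) '' G) ∧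
  sSup ((fun t : ℝ => (Complex.exp (-((θ : ℂ) * Complex.I)) *
      (deriv riemannZeta (pt σ t) / riemannZeta (pt σ t))).re) '' G) ≤
    (1 + δ) * (sSup ((fun t : ℝ => ‖deriv riemannZeta (pt σ t)‖) '' G) /
      sSup ((fun t : ℝ => ‖riemannZeta (pt σ t)‖) '' G)) ∧
  |sSup ((fun t : ℝ => (Complex.exp (-((θ : ℂ) * Complex.I)) *
      (deriv riemannZeta (pt σ t) / riemannZeta (pt σ t))).re) '' G) -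
    S2 σ ⌊Real.log H⌋₊| ≤ δ * S2 σ ⌊Real.log H⌋₊

end Pool.Agent.Helper57.SL
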