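import Pool.Agent.Helper57.SL.Stmts
import Pool.Agent.Helper57.SJ.UN

/-! Row UNS of the sheet `Helper57/SL/Stmts.lean`. -/

set_option autoImplicit false

namespace Pool.Agent.Helper57.SL

open MeasureTheory Set Filter Topology
open Pool.Agent.Helper57.QZ (Pr tor circ aa Zy Wy Sy Vy Ky Fy pt lin)
open Pool.Agent.Helper57.SJ (un57_sup)

theorem uns57_alg {d L a b m : ℝ} (hd0 : 0 < d) (hd1 : d ≤ 1 / 20) (hL : 0 < L) (ha : 0 < a)
    (hb1 : (1 - d / 40) * a * ((1 - d) * L) ≤ b) (hb2 : b ≤ a * ((1 + d) * L))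
    (hm1 : (1 - d) * L ≤ m) (hm2 : m ≤ (1 + d) * L) :
    (1 - 10 * d) * (b / a) ≤ m ∧ m ≤ (1 + 10 * d) * (b / a) ∧ |m - L| ≤ 10 * d * L := by
  have hq1 : (1 - 4 * d) * L ≤ b / a := by
    rw [le_div_iff₀ ha]
    have h2 : (1 - 4 * d) * L * a ≤ (1 - d / 40) * a * ((1 - d) * L) := by
      have : 0 < a * L := mul_pos ha hL
      nlinarith
    linarith
  have hq2 : b / a ≤ (1 + 4 * d) * L := by
    rw [div_le_iff₀ ha]
    have : 0 < a * L := mul_pos ha hL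
    nlinarith
  refine ⟨?_, ?_, ?_⟩
  · calc (1 - 10 * d) * (b / a) ≤ (1 - 10 * d) * ((1 + 4 * d) * L) :=
        mul_le_mul_of_nonneg_left hq2 (by linarith)
      _ ≤ (1 - d) * L := by nlinarith
      _ ≤ m := hm1
  · calc m ≤ (1 + d) * L := hm2
      _ ≤ (1 + 10 * d) * ((1 - 4 * d) * L) := by nlinarith
      _ ≤ (1 + 10 * d) * (b / a) := mul_le_mul_of_nonneg_left hq1 (by linarith)
  · rw [abs_le]
    constructor <;> nlinarith

/-- Row UNS. -/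
theorem st_UNS (h : ST_CMS) : ST_UNS := by
  intro δ hδ B hB
  obtain ⟨d, hdd⟩ : ∃ d : ℝ, d = δ / 20 := ⟨_, rfl⟩
  have hd : d ∈ Ioo (0:ℝ) 1 := ⟨by rw [hdd]; linarith [hδ.1], by rw [hdd]; linarith [hδ.2]⟩
  have hd0 : 0 < d := hd.1
  have hd1 : d ≤ 1 / 20 := by rw [hdd]; linarith [hδ.2]
  obtain ⟨κ, hκ, H₀, T₀, hH₀, hT₀, h1⟩ := h d hd B hB
  refine ⟨κ, hκ, max H₀ 16, T₀, le_max_of_le_left hH₀, hT₀, fun T hT H hH hHT => ?_⟩
  have hH0 : H₀ ≤ H := (le_max_left _ _).trans hH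
  have hH16 : (16:ℝ) ≤ H := (le_max_right _ _).trans hH
  obtain ⟨hl3, h2⟩ := h1 T hT H hH0 hHT
  refine ⟨hl3, fun σ hσ => ?_⟩
  obtain ⟨hS, M, R, E, hE1, hE2, h3⟩ := h2 σ hσ
  have hT0 : 0 < T := by linarith
  have hlog1 : 1 < Real.log H := by
    rw [Real.lt_log_iff_exp_lt (by linarith)]
    have := Real.exp_one_lt_d9
    linarith
  obtain ⟨L, hL⟩ : ∃ L : ℝ, L = Real.log (Real.log H) := ⟨_, rfl⟩
  have hL0 : 0 < L := by rw [hL]; exact Real.log_pos hlog1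
  obtain ⟨S, hSd⟩ : ∃ S : ℝ, S = S2 σ ⌊Real.log H⌋₊ := ⟨_, rfl⟩
  rw [← hL, ← hSd] at hS
  simp only [← hL, ← hSd] at h3
  have hS0 : 0 < S := by linarith
  have hSL : 1 / 2 ≤ S / L := by
    rw [le_div_iff₀ hL0]
    linarith
  refine ⟨E, hE1, hE2, fun U hU hUne G hG => ?_⟩
  have hin : ∀ u ∈ U, u ∈ Icc T (2 * T) ∧ u ∉ E := fun u hu => hU hu
  have hmem : ∀ t ∈ G, ∃ u ∈ U, t ∈ Icc u (u + H) := by
    intro t ht
    rw [hG] at ht
    simpa only [mem_iUnion, exists_prop] using ht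
  have hsub : ∀ u ∈ U, ∀ t ∈ Icc u (u + H), t ∈ G := by
    intro u hu t ht
    rw [hG]
    simp only [mem_iUnion, exists_prop]
    exact ⟨u, hu, ht⟩
  have hall : ∀ t ∈ G, riemannZeta (pt σ t) ≠ 0 ∧ ‖riemannZeta (pt σ t)‖ ≤ R ∧
      ‖deriv riemannZeta (pt σ t) / riemannZeta (pt σ t)‖ ≤ (1 + d) * S ∧
      (M - d / 4 * (S / L) ≤ Real.log ‖riemannZeta (pt σ t)‖ →
        (1 - d) * S ≤ ‖deriv riemannZeta (pt σ t) / riemannZeta (pt σ t)‖) := by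
    intro t ht
    obtain ⟨u, hu, htu⟩ := hmem t ht
    exact (h3 u (hin u hu).1 (hin u hu).2).2.1 t htu
  refine ⟨?_, fun θ => ?_⟩
  · intro t ht
    obtain ⟨u, hu, htu⟩ := hmem t ht
    have h4 := (h3 u (hin u hu).1 (hin u hu).2).1
    have h5 := (hin u hu).1.1
    exact ⟨h5.trans htu.1, htu.2.trans h4⟩
  obtain ⟨u, hu⟩ := hUne
  obtain ⟨-, -, ⟨t₁, ht₁', hz1⟩, hθ⟩ := h3 u (hin u hu).1 (hin u hu).2
  obtain ⟨t₂, ht₂', hw2⟩ := hθ θ
  have ht₁ : t₁ ∈ G := hsub u hu t₁ ht₁'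
  have ht₂ : t₂ ∈ G := hsub u hu t₂ ht₂'
  -- the supremum of `|ζ|`
  have hbd : BddAbove ((fun t : ℝ => ‖riemannZeta (pt σ t)‖) '' G) := by
    refine ⟨R, ?_⟩
    rintro _ ⟨t, ht, rfl⟩
    exact (hall t ht).2.1
  obtain ⟨a, had⟩ : ∃ a : ℝ, a = sSup ((fun t : ℝ => ‖riemannZeta (pt σ t)‖) '' G) := ⟨_, rfl⟩
  have hle : ∀ t ∈ G, ‖riemannZeta (pt σ t)‖ ≤ a := by
    intro t ht
    rw [had]
    exact le_csSup hbd ⟨t, ht, rfl⟩
  have hpos : ∀ t ∈ G, 0 < ‖riemannZeta (pt σ t)‖ := fun t ht => norm_pos_iff.2 (hall t ht).1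
  have ha : 0 < a := (hpos t₁ ht₁).trans_le (hle t₁ ht₁)
  obtain ⟨t₃, ht₃, hz3⟩ : ∃ t ∈ G, (1 - d / 40) * a < ‖riemannZeta (pt σ t)‖ := by
    have hlt : (1 - d / 40) * a < sSup ((fun t : ℝ => ‖riemannZeta (pt σ t)‖) '' G) := by
      rw [← had]
      nlinarith
    have hne : ((fun t : ℝ => ‖riemannZeta (pt σ t)‖) '' G).Nonempty :=
      Set.Nonempty.image _ ⟨t₁, ht₁⟩
    obtain ⟨_, ⟨t, ht, rfl⟩, h5⟩ := exists_lt_of_lt_csSup hne hlt
    exact ⟨t, ht, h5⟩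
  have hw3 : (1 - d) * S ≤ ‖deriv riemannZeta (pt σ t₃) / riemannZeta (pt σ t₃)‖ := by
    refine (hall t₃ ht₃).2.2.2 ?_
    have e1 : Real.log ((1 - d / 40) * ‖riemannZeta (pt σ t₁)‖) ≤
        Real.log ‖riemannZeta (pt σ t₃)‖ := by
      refine Real.log_le_log (mul_pos (by linarith) (hpos t₁ ht₁)) ?_
      refine le_trans ?_ hz3.le
      exact mul_le_mul_of_nonneg_left (hle t₁ ht₁) (by linarith)
    rw [Real.log_mul (by linarith) (hpos t₁ ht₁).ne'] at e1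
    have e2 : -(d / 20) ≤ Real.log (1 - d / 40) := by
      have h6 := Real.one_sub_inv_le_log_of_pos (show 0 < 1 - d / 40 by linarith)
      have h7 : (1 - d / 40)⁻¹ ≤ 1 + d / 20 := by
        rw [inv_le_iff_one_le_mul₀ (by linarith)]
        nlinarith
      linarith
    have e3 : d / 16 ≤ d / 8 * (S / L) := by nlinarith
    nlinarith
  have hder : ∀ t ∈ G, ‖deriv riemannZeta (pt σ t)‖ =
      ‖riemannZeta (pt σ t)‖ * ‖deriv riemannZeta (pt σ t) / riemannZeta (pt σ t)‖ := by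
    intro t ht
    rw [← norm_mul, mul_div_cancel₀ _ (hall t ht).1]
  have s2 := un57_sup (f := fun t => ‖deriv riemannZeta (pt σ t)‖) (G := G)
    (a := (1 - d / 40) * a * ((1 - d) * S)) (b := a * ((1 + d) * S))
    (fun t ht => by
      show ‖deriv riemannZeta (pt σ t)‖ ≤ _
      rw [hder t ht]
      exact mul_le_mul (hle t ht) (hall t ht).2.2.1 (norm_nonneg _) ha.le)
    ⟨t₃, ht₃, by
      show _ ≤ ‖deriv riemannZeta (pt σ t₃)‖
      rw [hder t₃ ht₃]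
      exact mul_le_mul hz3.le hw3 (mul_nonneg (by linarith) hS0.le) (norm_nonneg _)⟩
  have s3 := un57_sup (f := fun t => (Complex.exp (-((θ : ℂ) * Complex.I)) *
      (deriv riemannZeta (pt σ t) / riemannZeta (pt σ t))).re) (G := G)
    (a := (1 - d) * S) (b := (1 + d) * S)
    (fun t ht => by
      refine (Complex.re_le_norm _).trans ?_
      rw [norm_mul, show -((θ : ℂ) * Complex.I) = ((-θ : ℝ) : ℂ) * Complex.I by push_cast; ring,
        Complex.norm_exp_ofReal_mul_I, one_mul]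
      exact (hall t ht).2.2.1)
    ⟨t₂, ht₂, hw2⟩
  have h4 := uns57_alg hd0 hd1 hS0 ha s2.1 s2.2 s3.1 s3.2
  rw [← had, ← hSd]
  have hM : 0 ≤ sSup ((fun t : ℝ => ‖deriv riemannZeta (pt σ t)‖) '' G) / a := by
    refine div_nonneg (le_trans ?_ s2.1) ha.le
    exact mul_nonneg (mul_nonneg (by linarith) ha.le) (mul_nonneg (by linarith) hS0.le)
  have hδd : δ = 20 * d := by rw [hdd]; ring
  refine ⟨?_, ?_, ?_⟩
  · refine le_trans (mul_le_mul_of_nonneg_right ?_ hM) h4.1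
    linarith
  · refine le_trans h4.2.1 (mul_le_mul_of_nonneg_right ?_ hM)
    linarith
  · refine h4.2.2.trans (mul_le_mul_of_nonneg_right ?_ hS0.le)
    linarith

end Pool.Agent.Helper57.SL
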